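import Mathlib

set_option autoImplicit false
open Set Filter Topology

namespace Pool.Agent.Results.MP_ebea7e_gt.No

/-- Every real function that is continuous on each compact subset is continuous. -/
def KR (X : Type) [TopologicalSpace X] : Prop :=
  ∀ f : X → ℝ, (∀ K : Set X, IsCompact K → ContinuousOn f K) → Continuous f

theorem result : ∃ (G : Type) (_ : AddCommGroup G) (_ : TopologicalSpace G),
    IsTopologicalAddGroup G ∧ T2Space G ∧ KR G ∧
      ∃ H : AddSubgroup G, IsClosed (H : Set G) ∧ ¬ KR H := by
  classical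
  have noble : ∀ (J D : Type) [TopologicalSpace D] [DiscreteTopology D], KR (J → D) := by
    intro J D _ _ f hf
    refine continuous_iff_continuousAt.2 fun x => Metric.tendsto_nhds.2 fun ε hε => ?_
    have h1 : ∃ S : Finset J, ∀ (T : Finset J) (y : J → D), (∀ i ∈ S, y i = x i) →
        (∀ i ∉ T, y i = x i) → dist (f y) (f x) ≤ ε / 2 := by
      by_contra hh
      push Not at hh
      choose T y a1 a2 a3 using hh
      let S : ℕ → Finset J := fun n => Nat.rec ∅ (fun _ S => S ∪ T S) n
      have hS : Monotone S := monotone_nat_of_le_succ fun n => Finset.subset_union_left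
      have ht : Tendsto (fun n => y (S n)) atTop (𝓝 x) := tendsto_pi_nhds.2 fun i => by
        refine tendsto_const_nhds.congr' ?_
        by_cases h : ∃ n, i ∈ S n
        · obtain ⟨n, hn⟩ := h
          exact (eventually_ge_atTop n).mono fun m hm => (a1 _ i (hS hm hn)).symm
        · exact Eventually.of_forall fun m => (a2 _ i fun h' =>
            h ⟨m + 1, Finset.mem_union_right _ h'⟩).symm
      have h2 := (hf _ ht.isCompact_insert_range x (mem_insert _ _)).tendsto.comp
        (tendsto_nhdsWithin_iff.2 ⟨ht, Eventually.of_forall fun n => mem_insert_of_mem _ ⟨n, rfl⟩⟩)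
      obtain ⟨n, hn⟩ := (Metric.tendsto_nhds.1 h2 _ (half_pos hε)).exists
      exact lt_asymm hn (a3 _)
    obtain ⟨S, hS⟩ := h1
    have h3 : ∀ᶠ y in 𝓝 x, ∀ i ∈ S, y i = x i := (eventually_all_finset S).2 fun i _ =>
      ((continuous_apply i).tendsto x).eventually (p := fun d => d = x i)
        ((isOpen_discrete _).mem_nhds rfl)
    refine h3.mono fun y hy => lt_of_le_of_lt ?_ (half_lt_self hε)
    have hK : IsCompact (univ.pi fun i => ({x i, y i} : Set D)) :=
      isCompact_univ_pi fun i => (toFinite _).isCompact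
    have ht : Tendsto (fun T : Finset J => T.piecewise y x) atTop (𝓝 y) :=
      tendsto_pi_nhds.2 fun i => tendsto_const_nhds.congr'
        ((eventually_ge_atTop {i}).mono fun T hT =>
          (T.piecewise_eq_of_mem _ _ (hT (Finset.mem_singleton_self i))).symm)
    have h4 := (hf _ hK y fun i _ => .inr rfl).tendsto.comp
      (tendsto_nhdsWithin_iff.2 ⟨ht, Eventually.of_forall fun T i _ => by
        by_cases h : i ∈ T <;> simp [h]⟩)
    refine le_of_tendsto' (h4.dist tendsto_const_nhds) fun T => hS T _ (fun i hi => ?_)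
      fun i hi => T.piecewise_eq_of_notMem _ _ hi
    by_cases h : i ∈ T <;> simp [h, hy i hi]
  let J := {C : Set ℝ // C.Countable}
  let D : Type := ℝ → ℤ
  let _ : TopologicalSpace D := ⊥
  have : DiscreteTopology D := ⟨rfl⟩
  let H : AddSubgroup (J → D) :=
    { carrier := {g | ∀ C C' : J, C.1 ⊆ C'.1 → ∀ x, g C x = if x ∈ C.1 then g C' x else 0}
      zero_mem' := fun C C' _ x => (ite_self _).symm
      add_mem' := fun {a b} ha hb C C' h x => by
        show a C x + b C x = if x ∈ C.1 then a C' x + b C' x else 0
        rw [ha C C' h, hb C C' h]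
        split_ifs <;> simp
      neg_mem' := fun {a} ha C C' h x => by
        show -a C x = if x ∈ C.1 then -a C' x else 0
        rw [ha C C' h]
        split_ifs <;> simp }
  refine ⟨J → D, inferInstance, inferInstance, inferInstance, inferInstance, noble J D, H, ?_,
    fun h => ?_⟩
  · show IsClosed {g : J → D | ∀ C C' : J, C.1 ⊆ C'.1 → ∀ x,
      g C x = if x ∈ C.1 then g C' x else 0}
    simp only [ofPred_forall]
    exact isClosed_iInter fun C => isClosed_iInter fun C' => isClosed_iInter fun _ =>
      isClosed_iInter fun x => isClosed_eq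
        ((continuous_of_discreteTopology (f := fun d : D => d x)).comp (continuous_apply C))
        ((continuous_of_discreteTopology (f := fun d : D => if x ∈ C.1 then d x else 0)).comp
          (continuous_apply C'))
  have fin : ∀ K : Set H, IsCompact K → K.Finite := by
    intro K hK
    by_contra hh
    obtain ⟨L, h1, h2, h3⟩ := Set.Infinite.exists_subset_countable_infinite hh
    have : ∀ p : H × H, ∃ C : J, p.1 ≠ p.2 → p.1.1 C ≠ p.2.1 C := fun p => by
      by_cases e : p.1 = p.2
      · exact ⟨⟨∅, countable_empty⟩, fun h => (h e).elim⟩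
      · exact (Function.ne_iff.1 fun e' => e (Subtype.ext e')).imp fun _ h _ => h
    choose C hC using this
    let E : J := ⟨⋃ p ∈ L ×ˢ L, (C p).1, (h2.prod h2).biUnion fun p _ => (C p).2⟩
    refine h3 (Finite.of_finite_image (f := fun g : H => g.1 E)
      ((hK.image ((continuous_apply E).comp continuous_subtype_val)).finite_of_discrete.subset
        (image_mono h1)) fun a ha b hb e => ?_)
    by_contra hne
    have h4 : (C (a, b)).1 ⊆ E.1 :=
      subset_biUnion_of_mem (u := fun p => (C p).1) (show (a, b) ∈ L ×ˢ L from ⟨ha, hb⟩)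
    exact hC (a, b) hne (funext fun x => by
      rw [a.2 _ E h4, b.2 _ E h4, show a.1 E = b.1 E from e])
  have h5 := h (({0} : Set H).indicator 1) fun K hK => (fin K hK).continuousOn _
  let e : ℝ → H := fun r => ⟨fun C x => if x ∈ C.1 ∧ x = r then 1 else 0, fun C C' hC x => by
    by_cases hx : x ∈ C.1
    · simp [hx, hC hx]
    · simp [hx]⟩
  have : Nonempty J := ⟨⟨∅, countable_empty⟩⟩
  have hF : (⨅ C : J, 𝓟 C.1ᶜ).NeBot :=
    iInf_neBot_of_directed' (fun C C' => ⟨⟨C.1 ∪ C'.1, C.2.union C'.2⟩,
      principal_mono.2 (compl_subset_compl.2 subset_union_left),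
      principal_mono.2 (compl_subset_compl.2 subset_union_right)⟩)
      fun C => principal_neBot_iff.2 (C.2.dense_compl ℝ).nonempty
  have h6 : Tendsto e (⨅ C : J, 𝓟 C.1ᶜ) (𝓝 0) := by
    refine tendsto_subtype_rng.2 (tendsto_pi_nhds.2 fun C => tendsto_const_nhds.congr'
      (Eventually.mono (mem_iInf_of_mem C (mem_principal_self _)) fun r hr => funext fun x => ?_))
    exact (if_neg fun h : x ∈ C.1 ∧ x = r => hr (h.2 ▸ h.1)).symm
  have h7 : ∀ r, ({0} : Set H).indicator (1 : H → ℝ) (e r) = 0 := fun r =>
    indicator_of_notMem (fun h => by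
      have : (e r).1 ⟨{r}, countable_singleton r⟩ r = 0 := by rw [show e r = 0 from h]; rfl
      simp [e] at this) _
  have := tendsto_nhds_unique ((h5.tendsto 0).comp h6)
    (tendsto_const_nhds.congr fun r => (h7 r).symm)
  simp at this

end Pool.Agent.Results.MP_ebea7e_gt.No
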